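import Pool.Agent.H.MP_e60a9a_co.C

set_option autoImplicit false

namespace Pool.Agent.H.MP_cdddd3_co

open Finset hiding mk
open PowerSeries Pool.Agent.H.MP_e60a9a_co

variable {N : ℕ} (τ : ℝ)

abbrev Rg (N : ℕ) := MvPolynomial (Fin N) ℝ

noncomputable def pf (N : ℕ) (r : ℕ) : Rg N := τ • MvPolynomial.psum (Fin N) ℝ (r + 1)

noncomputable def gx (N : ℕ) : ℕ → Rg N := newton ℝ (pf τ N)

noncomputable def δ (i : Fin N) (f : Rg N) : Rg N := MvPolynomial.X i * MvPolynomial.pderiv i f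

noncomputable def Δ (i : Fin N) (S : (Rg N)⟦X⟧) : (Rg N)⟦X⟧ := mk fun r => δ i (coeff r S)

noncomputable def A (i : Fin N) : (Rg N)⟦X⟧ := mk fun r => if r = 0 then 0 else MvPolynomial.X i ^ r

noncomputable def tt (N : ℕ) : (Rg N)⟦X⟧ := C (MvPolynomial.C τ)

lemma hA (i : Fin N) : A i = C (MvPolynomial.X i) * (X * (1 + A i)) := by
  ext1 r
  rcases r with _ | _ | r <;> simp [A, coeff_succ_X_mul, coeff_one, pow_succ']

lemma Δ_mul (i : Fin N) (S T : (Rg N)⟦X⟧) : Δ i (S * T) = Δ i S * T + S * Δ i T := by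
  ext1 r
  simp only [Δ, δ, coeff_mk, coeff_mul, map_add, map_sum, MvPolynomial.pderiv_mul, mul_sum,
    ← sum_add_distrib]
  exact sum_congr rfl fun _ _ => by ring

lemma Δ_tt (i : Fin N) : Δ i (tt τ N) = 0 := by
  ext1 r
  simp only [Δ, δ, tt, coeff_mk, coeff_C]
  split_ifs <;> simp

lemma θA (i : Fin N) : X * d⁄dX _ (A i) = A i + A i ^ 2 := by
  have h := hA i
  have h' := congrArg (d⁄dX _) h
  simp only [Derivation.leibniz, derivative_C, derivative_X, smul_eq_mul, map_add, mul_zero, add_zero,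
    mul_one, Derivation.map_one_eq_zero, zero_add] at h'
  linear_combination X * (1 + A i) * h' - (X * d⁄dX _ (A i) + (1 + A i)) * h

lemma ΔA (i : Fin N) : Δ i (A i) = A i + A i ^ 2 := by
  rw [← θA]
  ext1 r
  rcases r with _ | r
  · simp [Δ, δ, A]
  · simp [Δ, δ, A, coeff_succ_X_mul, coeff_derivative]
    ring

lemma dG : d⁄dX _ (mk (gx τ N)) = mk (pf τ N) * mk (gx τ N) := by
  ext1 n
  simp only [coeff_derivative, coeff_mul, coeff_mk, gx, nw_succ']

lemma XP : X * mk (pf τ N) = tt τ N * ∑ i, A i := by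
  ext1 r
  rcases r with _ | r <;>
    simp [tt, A, pf, coeff_succ_X_mul, MvPolynomial.psum, MvPolynomial.smul_eq_C_mul]

lemma ΔG (i : Fin N) : Δ i (mk (gx τ N)) = tt τ N * A i * mk (gx τ N) := by
  have h1 : d⁄dX _ (Δ i (mk (gx τ N))) = Δ i (d⁄dX _ (mk (gx τ N))) := by
    ext1 n
    simp [coeff_derivative, Δ, δ]
    ring
  have h2 : Δ i (mk (pf τ N)) = tt τ N * d⁄dX _ (A i) := by
    ext1 n
    simp only [Δ, δ, tt, A, pf, coeff_mk, coeff_C_mul, coeff_derivative, MvPolynomial.psum,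
      Derivation.map_smul, map_sum]
    rw [sum_eq_single i (fun j _ h => by simp [h]) (by simp)]
    simp [MvPolynomial.smul_eq_C_mul]
    ring
  have h3 := nw_uniq (k := ℝ) (pf τ N) (mk (gx τ N) + (Δ i (mk (gx τ N)) - tt τ N * A i * mk (gx τ N)))
    (by simp [Δ, δ, A, gx, nw_zero]) (by
      rw [map_add, map_sub, h1, Derivation.leibniz, Derivation.leibniz, dG, Δ_mul, h2]
      simp only [tt, derivative_C, smul_eq_mul]
      ring)
  ext1 n
  have := h3 n
  rwa [map_add, coeff_mk, gx, add_eq_left, map_sub, sub_eq_zero] at this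

noncomputable def qq (i j : Fin N) (b : ℕ) : Rg N :=
  coeff b (tt τ N * (A i + A j + A i * A j) * mk (gx τ N))

lemma qq_spec (i j : Fin N) (b : ℕ) : (MvPolynomial.X i - MvPolynomial.X j) * qq τ i j b =
    MvPolynomial.X i * δ i (gx τ N b) - MvPolynomial.X j * δ j (gx τ N b) := by
  have : ∀ i, δ i (gx τ N b) = coeff b (Δ i (mk (gx τ N))) := fun i => by simp [Δ]
  rw [this, this, ΔG, ΔG, qq, ← coeff_C_mul, ← coeff_C_mul, ← coeff_C_mul, ← map_sub, map_sub C]
  congr 1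
  linear_combination tt τ N * mk (gx τ N) * (C (MvPolynomial.X i) * (1 + A i) * hA j -
    C (MvPolynomial.X j) * (1 + A j) * hA i)

lemma sum_lt {R : Type} [CommRing R] (f : Fin N → Fin N → R) (h : ∀ i j, f i j = f j i) :
    2 * ∑ i, ∑ j, (if i < j then f i j else 0) = ∑ i, ∑ j, f i j - ∑ i, f i i := by
  have : ∑ i, ∑ j, (if i < j then f i j else 0) = ∑ i, ∑ j, if j < i then f i j else 0 := by
    rw [sum_comm]
    simp only [h]
  rw [two_mul]
  nth_rw 1 [this]
  rw [← sum_add_distrib, ← sum_sub_distrib]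
  refine sum_congr rfl fun i _ => ?_
  rw [← sum_add_distrib, ← Fintype.sum_ite_eq i (f i), ← sum_sub_distrib]
  refine sum_congr rfl fun j _ => ?_
  rcases lt_trichotomy i j with h | rfl | h
  · simp [h, h.ne, h.not_gt]
  · simp
  · simp [h, h.ne', h.not_gt]

lemma θ_coeff (S : (Rg N)⟦X⟧) (b : ℕ) : coeff b (X * d⁄dX _ S) = b * coeff b S := by
  rcases b with _ | b
  · simp
  · simp [coeff_succ_X_mul, coeff_derivative, mul_comm]

lemma θG : X * d⁄dX _ (mk (gx τ N)) = tt τ N * (∑ i, A i) * mk (gx τ N) := by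
  rw [dG, ← mul_assoc, XP]

lemma sum_δ (b : ℕ) : ∑ i, δ i (gx τ N b) = b * gx τ N b := by
  have := congrArg (coeff b) (θG (N := N) τ)
  rw [θ_coeff, coeff_mk, mul_sum, sum_mul, map_sum] at this
  rw [this]
  exact sum_congr rfl fun i _ => by rw [← ΔG, Δ, coeff_mk, coeff_mk]

lemma one_row (b : ℕ) : ∑ i, (δ i (δ i (gx τ N b)) - δ i (gx τ N b)) + MvPolynomial.C (2 * τ) *
    ∑ i, ∑ j, (if i < j then qq τ i j b else 0) =
    MvPolynomial.C (b * (b - 1) + 2 * τ * (N - 1) * b) * gx τ N b := by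
  have h1 : ∀ i, δ i (δ i (gx τ N b)) - δ i (gx τ N b) =
      coeff b ((tt τ N + tt τ N ^ 2) * mk (gx τ N) * A i ^ 2) := by
    intro i
    rw [← show coeff b (Δ i (Δ i (mk (gx τ N))) - Δ i (mk (gx τ N))) = δ i (δ i (gx τ N b)) -
      δ i (gx τ N b) by simp [Δ], ΔG, Δ_mul, Δ_mul, Δ_tt, ΔA, ΔG]
    congr 1
    ring
  have h2 := sum_lt (fun i j : Fin N => A i + A j + A i * A j) fun i j => by ring
  simp only [sum_add_distrib, sum_const, card_univ, Fintype.card_fin, nsmul_eq_mul, ← mul_sum,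
    ← sum_mul, ← sq] at h2
  have h3 : ∑ i : Fin N, ∑ j, (if i < j then qq τ i j b else 0) = coeff b (tt τ N * mk (gx τ N) *
      ∑ i : Fin N, ∑ j, if i < j then A i + A j + A i * A j else 0) := by
    simp only [mul_sum, map_sum]
    refine sum_congr rfl fun i _ => sum_congr rfl fun j _ => ?_
    split_ifs
    · rw [qq, mul_right_comm]
    · simp
  have h4 : X * d⁄dX (Rg N) (X * d⁄dX (Rg N) (mk (gx τ N))) = (tt τ N * (∑ i, A i + ∑ i, A i ^ 2) +
      tt τ N ^ 2 * (∑ i, A i) ^ 2) * mk (gx τ N) := by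
    have : X * d⁄dX _ (∑ i : Fin N, A i) = ∑ i, A i + ∑ i, A i ^ 2 := by
      simp only [map_sum, mul_sum, θA, sum_add_distrib]
    rw [θG, Derivation.leibniz, Derivation.leibniz]
    simp only [smul_eq_mul, show d⁄dX _ (tt τ N) = 0 from derivative_C]
    linear_combination tt τ N * (∑ i, A i) * θG τ + tt τ N * mk (gx τ N) * this
  have h5 : MvPolynomial.C (b * (b - 1) + 2 * τ * (N - 1) * b) * gx τ N b =
      coeff b (X * d⁄dX _ (X * d⁄dX _ (mk (gx τ N))) - X * d⁄dX _ (mk (gx τ N)) +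
        C (MvPolynomial.C (2 * τ * (N - 1))) * (X * d⁄dX _ (mk (gx τ N)))) := by
    rw [map_add (coeff b), coeff_C_mul]
    simp only [map_add, map_sub, θ_coeff, coeff_mk, map_mul, map_natCast, map_one]
    ring
  rw [h5, h4, θG, h3, ← coeff_C_mul]
  simp only [h1]
  rw [← map_sum, ← mul_sum, ← map_add]
  refine congrArg _ ?_
  simp only [map_mul, map_sub, map_natCast, map_one, map_ofNat, show C (MvPolynomial.C τ) = tt τ N
    from rfl]
  linear_combination tt τ N ^ 2 * mk (gx τ N) * h2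

lemma δ_succ (i : Fin N) (b : ℕ) : δ i (gx τ N (b + 1)) =
    MvPolynomial.X i * (MvPolynomial.C τ * gx τ N b + δ i (gx τ N b)) := by
  have : Δ i (mk (gx τ N)) = C (MvPolynomial.X i) * (X * (tt τ N * mk (gx τ N) +
      Δ i (mk (gx τ N)))) := by
    rw [ΔG]
    linear_combination tt τ N * mk (gx τ N) * hA i
  simpa [Δ, coeff_succ_X_mul, tt] using congrArg (coeff (b + 1)) this

lemma cross (n a : ℕ) (h : a ≤ n) : ∑ i, δ i (gx τ N a) * δ i (gx τ N (n - a)) =
    MvPolynomial.C τ * (∑ j ∈ range a, (n - 2 * j : Rg N) * (gx τ N j * gx τ N (n - j)) -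
      (a : Rg N) * (gx τ N a * gx τ N (n - a))) := by
  induction a with
  | zero => simp [gx, nw_zero, δ]
  | succ a ih =>
    obtain ⟨b, rfl⟩ : ∃ b, n = a + 1 + b := ⟨n - (a + 1), by omega⟩
    have ih := ih (by omega)
    rw [sum_range_succ, show a + 1 + b - (a + 1) = b by omega]
    rw [show a + 1 + b - a = b + 1 by omega] at ih ⊢
    have h1 : ∑ i, δ i (gx τ N (a + 1)) * δ i (gx τ N b) = ∑ i, δ i (gx τ N a) * δ i (gx τ N (b + 1))
        + MvPolynomial.C τ * (gx τ N a * ∑ i, δ i (gx τ N (b + 1)) -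
          gx τ N b * ∑ i, δ i (gx τ N (a + 1))) := by
      simp only [mul_sum, ← sum_sub_distrib, ← sum_add_distrib, δ_succ]
      exact sum_congr rfl fun _ _ => by ring
    rw [h1, ih, sum_δ, sum_δ]
    push_cast
    ring

end Pool.Agent.H.MP_cdddd3_co
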