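import Pool.Agent.H.MP_cdddd3_co.D

set_option autoImplicit false

namespace Pool.Agent.H.MP_cdddd3_co

open Finset MvPolynomial Pool.Agent.H.MP_e60a9a_co

variable {N : ℕ} (τ : ℝ)

noncomputable def JJ (N : ℕ) (c : ℕ → ℝ) (n : ℕ) : Rg N :=
  ∑ b ∈ range (n + 1), C (c b) * (gx τ N b * gx τ N (n - b))

noncomputable def yy (N : ℕ) (c : ℕ → ℝ) (n : ℕ) (e : ℝ) (j : ℕ) : ℝ :=
  c j * (j * (j - 1) + (n - j) * (n - j - 1) + 2 * τ * (N - 1) * n - 2 * τ * j - e) +
    2 * τ * (n - 2 * j) * ∑ a ∈ range (n + 1), if j < a then c a else 0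

lemma eigen (c : ℕ → ℝ) (n : ℕ) (e : ℝ) (h : ∀ j ≤ n, yy τ N c n e j + yy τ N c n e (n - j) = 0) :
    ∃ q : Fin N → Fin N → Rg N, (∀ i j : Fin N, i < j → (X i - X j) * q i j =
      X i ^ 2 * pderiv i (JJ τ N c n) - X j ^ 2 * pderiv j (JJ τ N c n)) ∧
      ∑ i : Fin N, X i ^ 2 * pderiv i (pderiv i (JJ τ N c n)) +
        C (2 * τ) * ∑ i : Fin N, ∑ j : Fin N, (if i < j then q i j else 0) = C e * JJ τ N c n := by
  have d1 : ∀ (i : Fin N) f, X i ^ 2 * pderiv i f = X i * δ i f := fun i f => by rw [δ]; ring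
  have d2 : ∀ (i : Fin N) f, X i ^ 2 * pderiv i (pderiv i f) = δ i (δ i f) - δ i f := fun i f => by
    simp [δ]
    ring
  have d3 : ∀ (i : Fin N) (f : ℕ → Rg N) s, δ i (∑ b ∈ s, f b) = ∑ b ∈ s, δ i (f b) := fun i f s => by
    simp [δ, mul_sum]
  have d4 : ∀ (i : Fin N) f g, δ i (f * g) = δ i f * g + f * δ i g := fun i f g => by
    simp [δ]
    ring
  have d5 : ∀ (i : Fin N) f g, δ i (f + g) = δ i f + δ i g := fun i f g => by simp [δ, mul_add]
  have d6 : ∀ (i : Fin N) a, δ i (C a) = 0 := fun i a => by simp [δ]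
  refine ⟨fun i j => ∑ b ∈ range (n + 1), C (c b) * (qq τ i j b * gx τ N (n - b) +
    gx τ N b * qq τ i j (n - b)), fun i j _ => ?_, ?_⟩
  · simp only [d1, JJ, d3, d4, d6, mul_sum, ← sum_sub_distrib]
    refine sum_congr rfl fun b _ => ?_
    linear_combination C (c b) * gx τ N (n - b) * qq_spec τ i j b +
      C (c b) * gx τ N b * qq_spec τ i j (n - b)
  have h1 : ∑ j ∈ range (n + 1), C (yy τ N c n e j) * (gx τ N j * gx τ N (n - j)) = 0 := by
    have := sum_range_reflect (fun j => C (yy τ N c n e j) * (gx τ N j * gx τ N (n - j))) (n + 1)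
    refine (smul_right_injective (Rg N) (two_ne_zero (α := ℝ))).eq_iff.1 ?_
    simp only [two_smul, add_zero]
    nth_rw 1 [← this]
    rw [← sum_add_distrib]
    refine sum_eq_zero fun j hj => ?_
    have hj := mem_range.1 hj
    rw [show n + 1 - 1 - j = n - j by omega, show n - (n - j) = j by omega, mul_comm (gx τ N (n - j)),
      ← add_mul, ← map_add, add_comm, h j (by omega), map_zero, zero_mul]
  have h2 : ∑ i : Fin N, ∑ j : Fin N, (if i < j then ∑ b ∈ range (n + 1), C (c b) *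
      (qq τ i j b * gx τ N (n - b) + gx τ N b * qq τ i j (n - b)) else 0) =
      ∑ b ∈ range (n + 1), C (c b) * ((∑ i, ∑ j, if i < j then qq τ i j b else 0) * gx τ N (n - b) +
        gx τ N b * ∑ i, ∑ j, if i < j then qq τ i j (n - b) else 0) := by
    simp only [mul_sum, sum_mul, ← sum_add_distrib]
    rw [sum_comm (s := range _)]
    refine sum_congr rfl fun i _ => ?_
    rw [sum_comm (s := range _)]
    refine sum_congr rfl fun j _ => ?_
    split_ifs <;> simp
  have h3 : ∑ i : Fin N, X i ^ 2 * pderiv i (pderiv i (JJ τ N c n)) = ∑ b ∈ range (n + 1), C (c b) *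
      ((∑ i, (δ i (δ i (gx τ N b)) - δ i (gx τ N b))) * gx τ N (n - b) + gx τ N b *
        ∑ i, (δ i (δ i (gx τ N (n - b))) - δ i (gx τ N (n - b))) +
        2 * ∑ i, δ i (gx τ N b) * δ i (gx τ N (n - b))) := by
    simp only [d2, JJ, d3, d4, d5, d6, zero_mul, zero_add, mul_sum, sum_mul, ← sum_add_distrib, ← sum_sub_distrib]
    rw [sum_comm]
    exact sum_congr rfl fun b _ => sum_congr rfl fun i _ => by ring
  have h4 : ∑ b ∈ range (n + 1), C (c b) * ∑ j ∈ range b, (n - 2 * j : Rg N) *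
      (gx τ N j * gx τ N (n - j)) = ∑ j ∈ range (n + 1), C ((n - 2 * j) * ∑ a ∈ range (n + 1),
        if j < a then c a else 0) * (gx τ N j * gx τ N (n - j)) := by
    simp only [map_mul, map_sum, mul_sum, sum_mul]
    rw [sum_comm (s := range (n + 1)) (t := range (n + 1))]
    refine sum_congr rfl fun b hb => ?_
    rw [show range b = (range (n + 1)).filter (· < b) by
      ext
      simp only [mem_filter, mem_range] at hb ⊢
      omega, sum_filter]
    refine sum_congr rfl fun j _ => ?_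
    split_ifs
    · simp only [map_sub, map_mul, map_natCast, map_ofNat]
      ring
    · simp
  rw [h2, h3, ← sub_eq_zero]
  refine Eq.trans ?_ h1
  rw [JJ, mul_sum, mul_sum, ← sum_add_distrib, ← sum_sub_distrib,
    sum_congr rfl (g := fun b => C (c b * (b * (b - 1) + (n - b) * (n - b - 1) +
      2 * τ * (N - 1) * n - 2 * τ * b - e)) * (gx τ N b * gx τ N (n - b)) + C (2 * τ) * (C (c b) *
      ∑ j ∈ range b, (n - 2 * j : Rg N) * (gx τ N j * gx τ N (n - j)))), sum_add_distrib, ← mul_sum, h4,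
    mul_sum, ← sum_add_distrib]
  · refine sum_congr rfl fun b _ => ?_
    simp only [yy, map_add, map_mul]
    ring
  · intro b hb
    have hb : b ≤ n := Nat.lt_succ_iff.1 (mem_range.1 hb)
    have a1 := one_row (N := N) τ b
    have a2 := one_row (N := N) τ (n - b)
    rw [cross τ n b hb]
    simp only [Nat.cast_sub hb, map_add, map_mul, map_sub, map_natCast, map_one, map_ofNat] at a1 a2 ⊢
    linear_combination C (c b) * gx τ N (n - b) * a1 + C (c b) * gx τ N b * a2

lemma symm_JJ (c : ℕ → ℝ) (n : ℕ) : (JJ τ N c n).IsSymmetric := by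
  intro σ
  have : ∀ b, rename σ (gx τ N b) = gx τ N b := fun b => by
    simp only [gx, nw_map, pf, map_smul, rename_psum]
    rfl
  simp [JJ, this]

lemma hom_JJ (c : ℕ → ℝ) (n : ℕ) : (JJ τ N c n).IsHomogeneous n := by
  have : ∀ b, (gx τ N b).IsHomogeneous b := nw_mem (homogeneousSubmodule (Fin N) ℝ)
    (isHomogeneous_one _ _) (fun _ _ _ _ ha hb => IsHomogeneous.mul ha hb) _ fun i =>
      Submodule.smul_mem _ _ (IsHomogeneous.sum _ _ _ fun j _ => isHomogeneous_X_pow j _)
  refine IsHomogeneous.sum _ _ _ fun b hb => IsHomogeneous.C_mul ?_ _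
  have := (this b).mul (this (n - b))
  rwa [Nat.add_sub_cancel' (Nat.lt_succ_iff.1 (mem_range.1 hb))] at this

lemma tri_JJ {k : ℕ} (c : ℕ → ℝ) (h : ∀ r s, r + s < k → ∑ b ∈ range (k + k + 1),
    (if r ≤ b ∧ s ≤ k + k - b then c b * (mc τ (b - r) * mc τ (k + k - b - s)) else 0) = 0)
    (d : Fin N →₀ ℕ) (hd : d ∈ (JJ τ N c (k + k)).support) (i : Fin N) : d i ≤ k := by
  let W : ℕ → Submodule ℝ (Rg N) := fun _ =>
    { carrier := {p | p.degreeOf i = 0}
      add_mem' := fun {a b} ha hb => Nat.le_zero.1 ((degreeOf_add_le _ _ _).trans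
        (max_le (le_of_eq ha) (le_of_eq hb)))
      zero_mem' := degreeOf_zero _
      smul_mem' := fun c a ha => Nat.le_zero.1 (by
        rw [smul_eq_C_mul]
        exact (degreeOf_C_mul_le _ _ _).trans (le_of_eq ha)) }
  let g' : ℕ → Rg N := newton ℝ fun r => τ • ∑ j ∈ univ.erase i, X j ^ (r + 1)
  have hg : ∀ r, (g' r).degreeOf i = 0 := nw_mem W (degreeOf_C 1 i) (fun _ _ a b ha hb =>
    Nat.le_zero.1 ((degreeOf_mul_le _ _ _).trans (add_le_add (le_of_eq ha) (le_of_eq hb)))) _
    fun r => Submodule.smul_mem _ _ (Submodule.sum_mem _ fun j hj =>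
      degreeOf_X_pow_of_ne _ (mem_erase.1 hj).1.symm)
  have h1 : ∀ b ≤ k + k, gx τ N b = ∑ r ∈ range (k + k + 1),
      if r ≤ b then mc τ (b - r) • (X i ^ (b - r) * g' r) else 0 := by
    intro b hb
    rw [gx, show pf τ N = fun r => τ • ∑ j ∈ univ.erase i, X j ^ (r + 1) + τ • X i ^ (r + 1) by
        ext1 r
        rw [← smul_add, sum_erase_add _ _ (mem_univ i)]
        rfl, nw_add, ← sum_filter, Nat.sum_antidiagonal_eq_sum_range_succ_mk]
    refine sum_congr (by ext; simp; omega) fun r _ => ?_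
    rw [nw_geo, mul_smul_comm, mul_comm]
  have h2 : JJ τ N c (k + k) = ∑ r ∈ range (k + k + 1), ∑ s ∈ range (k + k + 1),
      (∑ b ∈ range (k + k + 1), if r ≤ b ∧ s ≤ k + k - b then c b * (mc τ (b - r) *
        mc τ (k + k - b - s)) else 0) • (X i ^ (k + k - r - s) * (g' r * g' s)) := by
    simp only [sum_smul]
    rw [JJ, sum_congr rfl fun _ _ => sum_comm, sum_comm]
    refine sum_congr rfl fun x hx => ?_
    have hx := mem_range.1 hx
    rw [h1 _ (by omega), h1 _ (by omega), sum_mul_sum, mul_sum]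
    refine sum_congr rfl fun r _ => ?_
    rw [mul_sum]
    refine sum_congr rfl fun s _ => ?_
    by_cases a : r ≤ x <;> by_cases b : s ≤ k + k - x <;> simp only [a, b, if_true, if_false,
      and_self, and_false, false_and, mul_zero, zero_mul, zero_smul]
    rw [show k + k - r - s = (x - r) + (k + k - x - s) by omega, pow_add]
    simp only [smul_eq_C_mul, map_mul]
    ring
  refine (monomial_le_degreeOf i hd).trans ?_
  rw [h2]
  refine (degreeOf_sum_le _ _ _).trans (Finset.sup_le fun r _ => (degreeOf_sum_le _ _ _).trans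
    (Finset.sup_le fun s _ => ?_))
  by_cases hr : r + s < k
  · simp [h r s hr]
  · rw [smul_eq_C_mul]
    refine (degreeOf_C_mul_le _ _ _).trans ((degreeOf_mul_le _ _ _).trans ?_)
    have a := degreeOf_mul_le i (g' r) (g' s)
    have b := degreeOf_pow_le i (X i : Rg N) (k + k - r - s)
    rw [degreeOf_X, if_pos rfl] at b
    rw [hg, hg] at a
    omega

end Pool.Agent.H.MP_cdddd3_co
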