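import Pool.Agent.H.MP_cdddd3_co.E

set_option autoImplicit false

namespace Pool.Agent.H.MP_cdddd3_co

open Finset MvPolynomial Pool.Agent.H.MP_e60a9a_co

variable {N : ℕ} (τ : ℝ)

noncomputable def rfr (i : ℕ) : Polynomial ℝ := τ • (Polynomial.X ^ (i + 1) + 1)

noncomputable def HH : ℕ → Polynomial ℝ := newton ℝ (rfr τ)

lemma coeff_HH (b j : ℕ) : (HH τ b).coeff j = if j ≤ b then mc τ j * mc τ (b - j) else 0 := by
  rw [HH, show rfr τ = fun i => τ • Polynomial.X ^ (i + 1) + τ • 1 ^ (i + 1) by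
    ext1 i
    simp [rfr], nw_add, Nat.sum_antidiagonal_eq_sum_range_succ_mk]
  simp only [nw_geo]
  simp only [one_pow, smul_mul_smul_comm, mul_one, Polynomial.finsetSum_coeff,
    Polynomial.coeff_smul, Polynomial.coeff_X_pow, smul_eq_mul, mul_ite, mul_zero, sum_ite_eq,
    mem_range, Nat.lt_succ_iff]

lemma nw_null {R : Type} [CommRing R] [Algebra ℝ R] (n : ℕ) :
    newton ℝ (fun _ => (0 : R)) n = if n = 0 then 1 else 0 := by
  rcases n with _ | n <;> simp [nw_zero, nw_succ]

lemma nw_sum {R ι : Type} [CommRing R] [Algebra ℝ R] (f : ι → ℕ → R) (s : Finset ι) :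
    PowerSeries.mk (newton ℝ fun r => ∑ i ∈ s, f i r) = ∏ i ∈ s, PowerSeries.mk (newton ℝ (f i)) := by
  classical
  induction s using Finset.induction_on with
  | empty =>
    ext1 n
    simp [nw_null, PowerSeries.coeff_one]
  | insert a s ha ih =>
    ext1 n
    simp only [sum_insert ha, prod_insert ha, ← ih, PowerSeries.coeff_mk, nw_add, PowerSeries.coeff_mul]

noncomputable def ι (N : ℕ) : Rg N →ₐ[ℝ] MvPolynomial (Fin N) (Polynomial ℝ) :=
  mapAlgHom (Algebra.ofId ℝ _)

noncomputable def Kn (N n : ℕ) : MvPolynomial (Fin N) (Polynomial ℝ) :=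
  newton ℝ (fun r => ∑ i, X i ^ (r + 1) * C (rfr τ r)) n

lemma coeff_Kn (n : ℕ) (d : Fin N →₀ ℕ) (h : ∑ i, d i = n) :
    coeff d (Kn τ N n) = ∏ i, HH τ (d i) := by
  have := congrArg (PowerSeries.coeff n)
    (nw_sum (fun (i : Fin N) r => (X i ^ (r + 1) * C (rfr τ r) : MvPolynomial _ _)) univ)
  have h2 : ∀ m, newton ℝ (fun r => (C (rfr τ r) : MvPolynomial (Fin N) (Polynomial ℝ))) m =
      C (HH τ m) := fun m =>
    (nw_map (IsScalarTower.toAlgHom ℝ _ (MvPolynomial (Fin N) (Polynomial ℝ))) _ m).symm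
  rw [PowerSeries.coeff_mk, PowerSeries.coeff_prod] at this
  simp only [PowerSeries.coeff_mk, nw_scale, h2, prod_mul_distrib, ← map_prod] at this
  rw [Kn, this, coeff_sum, sum_congr rfl (g := fun l => if l = d then ∏ i, HH τ (l i) else 0),
    sum_ite_eq', if_pos (by simp [h])]
  intro l _
  rw [mul_comm, ← coeff_monomial, monomial_eq, Finsupp.prod_fintype _ _ (by simp)]

lemma coeff_JJ (c : ℕ → ℝ) (n : ℕ) (V : Rg N) (t : Fin N →₀ ℕ) : coeff t (JJ τ N c n * V) =
    ∑ b ∈ range (n + 1), c b * (coeff t (Kn τ N n * ι N V)).coeff b := by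
  have h1 : Kn τ N n = ∑ b ∈ range (n + 1), C (Polynomial.X ^ b) * ι N (gx τ N b * gx τ N (n - b)) := by
    rw [Kn, show (fun r => ∑ i : Fin N, X i ^ (r + 1) * C (rfr τ r)) =
      fun r => C Polynomial.X ^ (r + 1) * ι N (pf τ N r) + ι N (pf τ N r) by
        ext1 r
        simp only [rfr, ι, pf, psum, mapAlgHom_apply, map_X, Algebra.smul_def, map_mul, map_add,
          map_pow, map_one, MvPolynomial.algebraMap_apply, map_C, map_sum, ← sum_mul]
        simp
        ring, nw_add, Nat.sum_antidiagonal_eq_sum_range_succ_mk]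
    simp only [nw_scale]
    simp only [← nw_map (ι N), mul_assoc, ← map_mul, ← map_pow, gx]
  have hι : ∀ F, coeff t (ι N F) = Polynomial.C (coeff t F) := fun F => coeff_map _ _ _
  simp only [h1, JJ, sum_mul, mul_assoc, coeff_sum, coeff_C_mul, ← map_mul, hι,
    Polynomial.finsetSum_coeff, Polynomial.coeff_mul_C, Polynomial.coeff_X_pow, ite_mul, one_mul,
    zero_mul, sum_ite_eq]
  exact sum_congr rfl fun b hb => by rw [if_pos hb]

lemma coeff_V (n : ℕ) (mu : ℕ → ℕ) (h : ∑ i : Fin N, mu i = n) :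
    coeff (Finsupp.equivFunOnFinite.symm fun i : Fin N => mu i + (N - 1 - i)) (Kn τ N n *
      ι N (∏ i : Fin N, ∏ j : Fin N, if i < j then X i - X j else 1)) =
    (Matrix.of fun i j : Fin N => if (i : ℕ) ≤ mu i + j then HH τ (mu i + j - i) else 0).det := by
  have h1 : (∏ i : Fin N, ∏ j : Fin N, if i < j then X i - X j else 1 : Rg N) =
      (Matrix.projVandermonde 1 X).det := by
    rw [Matrix.det_projVandermonde]
    refine prod_congr rfl fun i _ => ?_
    rw [← prod_filter, filter_lt_eq_Ioi]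
    simp
  rw [h1, ← Matrix.det_transpose, ← Matrix.det_transpose (Matrix.of _), Matrix.det_apply',
    Matrix.det_apply', map_sum, mul_sum, coeff_sum]
  refine sum_congr rfl fun σ _ => ?_
  have h2 : ι N (∏ i, (Matrix.projVandermonde 1 X).transpose (σ i) i) =
      monomial (Finsupp.equivFunOnFinite.symm fun i => ((σ i).rev : ℕ)) 1 := by
    rw [monomial_eq, Finsupp.prod_fintype _ _ (by simp)]
    simp [ι, Matrix.projVandermonde_apply]
  rw [map_mul, map_intCast, h2, mul_left_comm, ← map_intCast (C (σ := Fin N) (R := Polynomial ℝ)),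
    coeff_C_mul,
    coeff_mul_monomial', mul_one]
  congr 1
  simp only [Finsupp.le_def, Finsupp.equivFunOnFinite_symm_apply_apply, Fin.val_rev,
    Matrix.transpose_apply, Matrix.of_apply]
  split_ifs with h3
  · rw [coeff_Kn]
    · refine prod_congr rfl fun i _ => ?_
      have := h3 i
      rw [if_pos (by omega)]
      congr 1
      simp only [Finsupp.coe_tsub, Pi.sub_apply, Finsupp.equivFunOnFinite_symm_apply_apply]
      omega
    · simp only [Finsupp.coe_tsub, Pi.sub_apply, Finsupp.equivFunOnFinite_symm_apply_apply]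
      rw [sum_tsub_distrib _ fun i _ => h3 i, sum_add_distrib, h,
        Equiv.sum_comp σ fun i => N - (i + 1), sum_congr rfl (g := fun i : Fin N => N - (i + 1))
        fun i _ => by omega, Nat.add_sub_cancel]
  · push Not at h3
    obtain ⟨i, hi⟩ := h3
    exact (prod_eq_zero (mem_univ i) (if_neg (by omega))).symm

lemma conv (M s l : ℕ) (h : l < M) : ∑ j ∈ range M, (if s ≤ j then HH τ (j - s) else 0) *
    (if j ≤ l then HH (-τ) (l - j) else 0) = if s = l then 1 else 0 := by
  simp only [ite_mul, mul_ite, mul_zero, zero_mul, ← ite_and]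
  rw [← sum_filter, show filter (fun j => j ≤ l ∧ s ≤ j) (range M) = Ico s (l + 1) by
    ext
    simp only [mem_filter, mem_range, mem_Ico]
    omega, sum_Ico_eq_sum_range]
  by_cases hs : s ≤ l
  · have := nw_add (k := ℝ) (rfr τ) (rfr (-τ)) (l - s)
    simp only [rfr, neg_smul, add_neg_cancel, nw_null] at this
    rw [Nat.sum_antidiagonal_eq_sum_range_succ_mk] at this
    rw [show l + 1 - s = (l - s).succ by omega, if_congr (show s = l ↔ l - s = 0 by omega) rfl rfl,
      this]
    exact sum_congr rfl fun j _ => by rw [Nat.add_sub_cancel_left, Nat.sub_add_eq]; rfl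
  · rw [show l + 1 - s = 0 by omega, if_neg (by omega), sum_range_zero]

def rot : Equiv.Perm (Fin 16) where
  toFun i := if i = 0 then 7 else if i < 8 then i - 1 else i
  invFun i := if i = 7 then 0 else if i < 8 then i + 1 else i
  left_inv := by decide
  right_inv := by decide

lemma HH_zero : HH τ 0 = 1 := nw_zero _

lemma conv2 (M s l : ℕ) (h : l < M) : ∑ j ∈ range M, (if s ≤ j + 2 then HH τ (j + 2 - s) else 0) *
    (if j ≤ l then HH (-τ) (l - j) else 0) = (if s = l + 2 then 1 else 0) -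
      (if s ≤ 1 then HH τ (1 - s) else 0) * HH (-τ) (l + 1) -
      (if s ≤ 0 then 1 else 0) * HH (-τ) (l + 2) := by
  rw [← conv τ (M + 2) s (l + 2) (by omega), sum_range_succ', sum_range_succ',
    if_pos (show 0 + 1 ≤ l + 2 by omega), if_pos (show 0 ≤ l + 2 by omega), Nat.zero_sub, HH_zero]
  simp only [show ∀ j, j + 1 + 1 ≤ l + 2 ↔ j ≤ l by omega,
    show ∀ j, l + 2 - (j + 1 + 1) = l - j by omega]
  simp [add_assoc]
  ring

lemma detB {R : Type} [CommRing R] (B : Matrix (Fin 16) (Fin 16) R) (h3 : ∀ (i : Fin 14) (l : Fin 16),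
    B (Fin.natAdd 2 i) (rot (rot l)) = if Fin.natAdd 2 i = l then 1 else 0) :
    B.det = B 0 6 * B 1 7 - B 0 7 * B 1 6 := by
  have h2 := Matrix.det_permute' (rot * rot) B
  rw [Equiv.Perm.sign_mul, Int.units_mul_self, Units.val_one, Int.cast_one, one_mul] at h2
  rw [← h2, ← Matrix.det_submatrix_equiv_self (finSumFinEquiv (m := 2) (n := 14)),
    ← Matrix.fromBlocks_toBlocks (Matrix.submatrix _ _ _), show Matrix.toBlocks₂₁ _ = 0 by
      ext1 i j
      simp only [Matrix.toBlocks₂₁, Matrix.of_apply, Matrix.submatrix_apply, id,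
        finSumFinEquiv_apply_right, finSumFinEquiv_apply_left, Equiv.Perm.mul_apply, h3]
      rw [if_neg (by simp [Fin.ext_iff]; omega), Matrix.zero_apply],
    show Matrix.toBlocks₂₂ _ = 1 by
      ext1 i j
      simp only [Matrix.toBlocks₂₂, Matrix.of_apply, Matrix.submatrix_apply, id,
        finSumFinEquiv_apply_right, Equiv.Perm.mul_apply, h3, Matrix.one_apply, Fin.natAdd_inj],
    Matrix.det_fromBlocks_zero₂₁, Matrix.det_one, mul_one, Matrix.det_fin_two]
  rfl

lemma detU (mu : ℕ → ℕ) : ∃ B : Matrix (Fin N) (Fin N) (Polynomial ℝ), (Matrix.of fun i j : Fin N =>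
    if (i : ℕ) ≤ mu i + j then HH τ (mu i + j - i) else 0).det = B.det ∧
    ∀ (i l : Fin N) (s : ℕ), s + mu i = i + 2 → B i l = (if s = l + 2 then 1 else 0) -
      (if s ≤ 1 then HH τ (1 - s) else 0) * HH (-τ) (l + 1) -
      (if s ≤ 0 then 1 else 0) * HH (-τ) (l + 2) := by
  let U : Matrix (Fin N) (Fin N) (Polynomial ℝ) :=
    Matrix.of fun j l : Fin N => if (j : ℕ) ≤ l then HH (-τ) (l - j) else 0
  have hU : U.det = 1 := by
    rw [Matrix.det_of_isUpperTriangular (M := U) fun i j h => if_neg (by simpa using h)]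
    simp [U, HH_zero]
  refine ⟨(Matrix.of fun i j : Fin N => if (i : ℕ) ≤ mu i + j then HH τ (mu i + j - i) else 0) * U,
    by rw [Matrix.det_mul, hU, mul_one], fun i l s hs => ?_⟩
  rw [← conv2 τ N s l l.2, sum_range, Matrix.mul_apply]
  refine sum_congr rfl fun j _ => congrArg₂ _ ?_ rfl
  exact if_congr (by omega) (congrArg _ (by omega)) rfl

lemma det16 : (Matrix.of fun i j : Fin 16 => if (i : ℕ) ≤ (if (i : ℕ) < 8 then 2 else 0) + j then
    HH τ ((if (i : ℕ) < 8 then 2 else 0) + j - i) else 0).det =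
    HH (-τ) 8 * HH (-τ) 8 - HH (-τ) 9 * HH (-τ) 7 := by
  obtain ⟨B, h0, h1⟩ := detU (N := 16) τ fun i => if i < 8 then 2 else 0
  rw [h0, detB B, h1 0 6 0 rfl, h1 0 7 0 rfl, h1 1 6 1 rfl, h1 1 7 1 rfl]
  · simp [HH_zero]
    ring
  intro i l
  rw [h1 _ _ (if (i : ℕ) < 6 then i + 2 else i + 4) (by simp; split_ifs <;> omega),
    if_neg (c := _ ≤ 1) (by split_ifs <;> omega), if_neg (c := _ ≤ 0) (by split_ifs <;> omega),
    zero_mul, zero_mul, sub_zero, sub_zero]
  refine if_congr ?_ rfl rfl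
  revert i l
  decide

end Pool.Agent.H.MP_cdddd3_co
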