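import Pool.Agent.H.MP_cdddd3_co.F

set_option autoImplicit false

namespace Pool.Agent.H.MP_cdddd3_co

open Finset MvPolynomial Pool.Agent.H.MP_e60a9a_co

variable (τ : ℝ)

lemma vl_mcL (s : ℤ) {n j : ℕ} (h : j ≤ n) : vl τ (mcL s n j) = n.factorial * mc (s * τ) j := by
  have := mc_eq (s * τ) j
  obtain ⟨q, hq⟩ := Nat.factorial_dvd_factorial h
  rw [mcL, vl, vl_prod, hq, Nat.mul_div_cancel_left _ j.factorial_pos]
  simp only [vl, Int.cast_natCast, Nat.cast_mul]
  rw [prod_congr rfl (g := fun i : ℕ => s * τ + i) fun _ _ => by ring, ← this]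
  ring

lemma vl_cvL (s : ℤ) {n a b : ℕ} (ha : a ≤ n) (hb : b ≤ n) (j : ℕ) : vl τ (cvL s n a b j) =
    n.factorial ^ 4 * (HH (s * τ) a * HH (s * τ) b).coeff j := by
  have : ∀ b ≤ n, ∀ j, vl τ (rL s n b j) = n.factorial ^ 2 * (HH (s * τ) b).coeff j := by
    intro b hb j
    rw [rL, coeff_HH]
    split_ifs
    · rw [vl, vl_mcL _ _ (by omega), vl_mcL _ _ (by omega)]
      ring
    · simp [vl]
  rw [cvL, vl_sum, Polynomial.coeff_mul, Nat.sum_antidiagonal_eq_sum_range_succ_mk, mul_sum]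
  refine sum_congr rfl fun i _ => ?_
  rw [vl, this _ ha, this _ hb]
  ring

def lam (i : ℕ) : ℕ := if i < 2 then 8 else 0

def mu (i : ℕ) : ℕ := if i < 8 then 2 else 0

lemma lam_anti : Antitone lam := fun a b h => by
  simp only [lam]
  split_ifs <;> omega

lemma mu_anti : Antitone mu := fun a b h => by
  simp only [mu]
  split_ifs <;> omega

noncomputable def JX : Rg 16 := JJ τ 16 (fun b => 40320 * vl τ (cL 8 b)) 16

def aL : List ℤ := [0, 597793996800, 73236035174400, 2004440894668800, 19314619527168000,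
  79659352571904000, 154554571254988800, 146689299490406400, 68260823569612800, 15222991343616000,
  1568059637760000, 68516388864000, 804722688000]

def yL (j : ℕ) : Ex := .add (.mul (cL 8 j) (.lin (j * (j - 1) + (16 - j) * (15 - j) - 112) (16 - 2 * j)))
  (.mul (.lin 0 (2 * (16 - 2 * j))) (lsum 17 fun a => if j < a then cL 8 a else .lin 0 0))

lemma c1 : ∀ r < 8, ∀ s < 8 - r, isZ (kaL 8 r s) = true := by decide +kernel

lemma c4 : (tri (-11) aL).2.1 ^ 2 < (tri (-11) aL).1 * (tri (-11) aL).2.2 := by decide +kernel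

lemma c5 : ∀ j ≤ 16, isZ (.add (yL j) (yL (16 - j))) = true := by decide +kernel

lemma c6 : isZ (.add (.mul (.lin 40320 0) (lsum 17 fun b => .mul (cL 8 b) (cvL 1 16 8 8 b)))
    (.mul (.lin (-1) 0) (.mul (.lin ((Nat.factorial 16 : ℕ) ^ 4) 0) (hookL 8)))) = true := by
  decide +kernel

lemma c7 : isZ (.add (.mul (.lin 40320 0) (tL 7 8)) (.mul (.lin (-1) 0)
    (.mul (.lin ((Nat.factorial 16 : ℕ) ^ 3) 0) (lsum 16 fun k =>
      .mul (.lin (aL.getD k 0) 0) (lprod 16 fun i => .lin (k - i) 1))))) = true := by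
  decide +kernel

lemma f16 : ((Nat.factorial 16 : ℕ) : ℝ) ≠ 0 := Nat.cast_ne_zero.2 (Nat.factorial_ne_zero _)

lemma JX_tri : ∀ m ∈ (JX τ).support, ∑ i, m i = 16 ∧
    ∀ S : Finset (Fin 16), ∑ i ∈ S, m i ≤ ∑ i ∈ range S.card, lam i := by
  intro d hd
  have h1 : ∑ i, d i = 16 := by
    rw [← Finsupp.degree_eq_sum, Finsupp.degree_eq_weight_one]
    exact hom_JJ τ _ _ (mem_support_iff.1 hd)
  refine ⟨h1, fun S => ?_⟩
  have key := tri_JJ (k := 8) τ _ (fun r s h => by
    have := vl_isZ τ _ (c1 r (by omega) s (by omega))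
    rw [kaL, vl_sum] at this
    replace this := congrArg (· * (40320 / (Nat.factorial 16) ^ 2 : ℝ)) this
    simp only [sum_mul, zero_mul] at this
    refine (sum_congr rfl fun b hb => ?_).trans this
    have := mem_range.1 hb
    have := f16
    split_ifs
    · rw [vl, vl, vl_mcL _ _ (by omega), vl_mcL _ _ (by omega)]
      simp only [Int.cast_one, one_mul]
      field_simp
    · simp [vl]) d hd
  have h2 := sum_le_sum_of_subset (f := d) S.subset_univ
  have h3 := sum_le_card_nsmul S d 8 fun i _ => key i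
  rw [h1] at h2
  generalize S.card = m at h3 ⊢
  rcases m with _ | _ | m
  · simpa using h3
  · simpa [lam] using h3
  · simpa [lam, sum_range_succ'] using h2

lemma JX_lead : coeff (Finsupp.equivFunOnFinite.symm fun i : Fin 16 => lam i) (JX τ) =
    ∏ i ∈ range 16, ∏ j ∈ range (lam i), (τ * ((((range 16).filter fun k => j < lam k).card : ℝ) - i)
      + ((lam i : ℝ) - j - 1)) := by
  have h := vl_eq τ c6
  have hc : ∀ j ∈ range 8, ((range 16).filter fun k => j < lam k).card = 2 := by decide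
  rw [← mul_one (JX τ), JX, coeff_JJ, map_one, mul_one, coeff_Kn _ _ _ (by decide),
    show ∏ i : Fin 16, HH τ (Finsupp.equivFunOnFinite.symm (fun i : Fin 16 => lam i) i) =
      HH τ 8 * HH τ 8 by simp [Fin.prod_univ_succ, lam, HH_zero], prod_range_succ', prod_range_succ',
    prod_eq_one (s := range 14) fun i _ => by simp [lam]]
  simp only [vl, vl_sum, vl_cvL τ 1 (show 8 ≤ 16 by omega) (show 8 ≤ 16 by omega), hookL, vl_prod,
    Int.cast_pow, Int.cast_natCast, Int.cast_one, one_mul, Int.cast_zero, mul_zero, add_zero,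
    mul_left_comm _ ((_ : ℝ) ^ 4), ← mul_sum, Int.cast_ofNat] at h
  simp only [mul_assoc, ← mul_sum, mul_left_cancel₀ (pow_ne_zero 4 f16) h, show lam (0 + 1) = 8 from rfl,
    show lam 0 = 8 from rfl, one_mul]
  rw [mul_comm]
  congr 1 <;> refine prod_congr rfl fun j hj => ?_ <;>
    rw [hc j hj, Nat.sub_sub, Nat.cast_sub (mem_range.1 hj)] <;> push_cast <;> ring

lemma JX_eig : ∃ q : Fin 16 → Fin 16 → Rg 16, (∀ i j : Fin 16, i < j → (X i - X j) * q i j =
      X i ^ 2 * pderiv i (JX τ) - X j ^ 2 * pderiv j (JX τ)) ∧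
      ∑ i : Fin 16, X i ^ 2 * pderiv i (pderiv i (JX τ)) + C (2 * τ) * ∑ i : Fin 16, ∑ j : Fin 16,
        (if i < j then q i j else 0) = C (112 + 464 * τ) * JX τ := by
  have : ∀ j, yy τ 16 (fun b => 40320 * vl τ (cL 8 b)) 16 (112 + 464 * τ) j = 40320 * vl τ (yL j) := by
    intro j
    rw [yy, yL, sum_congr rfl (g := fun a => 40320 * vl τ (if j < a then cL 8 a else .lin 0 0))
      fun a _ => by split_ifs <;> simp [vl], ← mul_sum]
    simp only [vl, vl_sum]
    push_cast
    ring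
  exact eigen τ _ _ _ fun j hj => by
    rw [this, this, ← mul_add, ← vl, vl_isZ τ _ (c5 j hj), mul_zero]

lemma JX_schur : coeff (Finsupp.equivFunOnFinite.symm fun i : Fin 16 => mu i + (16 - 1 - i))
    (JX τ * ∏ i : Fin 16, ∏ j : Fin 16, if i < j then X i - X j else 1) = ∑ j ∈ range 16,
      (aL.getD j 0 : ℤ) * ((descPochhammer ℝ 16).eval (τ + j) / (Nat.factorial 16 : ℕ)) := by
  have h := vl_eq τ c7
  rw [JX, coeff_JJ, (coeff_V τ 16 mu (by decide)).trans (det16 τ)]
  simp only [vl, vl_sum, tL, vl_cvL τ (-1) (show 8 ≤ 8 + 8 by omega) (show 8 ≤ 8 + 8 by omega),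
    vl_cvL τ (-1) (show 7 + 2 ≤ 8 + 8 by omega) (show 7 ≤ 8 + 8 by omega), vl_prod, Int.cast_pow,
    Int.cast_natCast, Int.cast_one, Int.cast_neg, neg_mul, one_mul, Int.cast_zero, mul_zero, add_zero,
    mul_one, Int.cast_sub, Int.cast_ofNat] at h
  refine mul_left_cancel₀ (pow_ne_zero 4 f16) (Eq.trans ?_ (h.trans ?_))
  · simp only [mul_sum, Polynomial.coeff_sub]
    exact sum_congr rfl fun b _ => by ring
  · simp only [mul_sum, descPochhammer_eval_eq_prod_range]
    refine sum_congr rfl fun k _ => ?_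
    rw [prod_congr rfl (g := fun i : ℕ => τ + k - i) fun _ _ => by ring]
    have := f16
    field_simp

lemma a_eq (a : ℕ → ℕ) (h : ∀ τ : ℝ, 0 < τ → ∑ j ∈ range 16,
    (a j : ℝ) * ((descPochhammer ℝ 16).eval (τ + j) / (Nat.factorial 16 : ℕ)) = ∑ j ∈ range 16,
    (aL.getD j 0 : ℤ) * ((descPochhammer ℝ 16).eval (τ + j) / (Nat.factorial 16 : ℕ))) :
    ∀ j < 16, (a j : ℤ) = aL.getD j 0 := by
  intro j hj
  induction hm : 16 - j using Nat.strong_induction_on generalizing j with
  | _ m ih =>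
  have := h m (Nat.cast_pos.2 (by omega))
  rw [← sub_eq_zero, ← sum_sub_distrib, sum_eq_single j] at this
  · rw [← sub_mul, ← Nat.cast_add, descPochhammer_eval_eq_descFactorial,
      show m + j = 16 by omega, Nat.descFactorial_self, div_self f16, mul_one, sub_eq_zero] at this
    exact_mod_cast this
  · intro i hi hne
    have hi := mem_range.1 hi
    rcases lt_or_gt_of_ne hne with h | h
    · rw [← Nat.cast_add, descPochhammer_eval_eq_descFactorial,
        Nat.descFactorial_of_lt (by omega)]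
      simp
    · rw [← ih _ (by omega) i hi rfl, Int.cast_natCast, sub_self]
  · exact fun h => absurd (mem_range.2 hj) h

lemma root : ∃ z : ℂ, z.im ≠ 0 ∧ ∑ j ∈ range 16, (aL.getD j 0 : ℤ) * z ^ j = 0 := by
  obtain ⟨z, z1, z2⟩ := nonreal aL _ c4
  exact ⟨z, z1, ev_range z aL 16 (by simp [aL]) ▸ z2⟩

end Pool.Agent.H.MP_cdddd3_co
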